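import Mathlib
import Pool.Agent.X164.RegConv

set_option autoImplicit false

namespace Pool.Agent.Results.MP_b39683_an.NonAmenable

/-- The Banach lattice `L^2(G, ℂ)` of a discrete group `G` (Haar measure is counting measure). -/
def L2 (G : Type) : Type := lp (fun _ : G => ℂ) 2

noncomputable instance (G : Type) : NormedAddCommGroup (L2 G) :=
  (inferInstance : NormedAddCommGroup (lp (fun _ : G => ℂ) 2))

noncomputable instance (G : Type) : NormedSpace ℂ (L2 G) :=
  (inferInstance : NormedSpace ℂ (lp (fun _ : G => ℂ) 2))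

/-- The value of `f` in `L^2(G)` at the point `t`. -/
def val {G : Type} (f : L2 G) (t : G) : ℂ := (show lp (fun _ : G => ℂ) 2 from f).1 t

/-- A discrete group is amenable if it carries a finitely additive left invariant probability
measure defined on all of its subsets. -/
def Amenable (G : Type) [Group G] : Prop :=
  ∃ m : Set G → ℝ, (∀ A, 0 ≤ m A) ∧ m Set.univ = 1 ∧
    (∀ A B, Disjoint A B → m (A ∪ B) = m A + m B) ∧
    ∀ (g : G) (A : Set G), m ((fun x => g * x) '' A) = m A

/-- A positive operator maps nonnegative functions to nonnegative functions. -/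
def IsPositive {G : Type} (P : L2 G →L[ℂ] L2 G) : Prop :=
  ∀ f : L2 G, (∀ t, 0 ≤ (val f t).re ∧ (val f t).im = 0) →
    ∀ t, 0 ≤ (val (P f) t).re ∧ (val (P f) t).im = 0

/-- A regular operator is a complex linear combination of positive operators. -/
def IsRegular {G : Type} (T : L2 G →L[ℂ] L2 G) : Prop :=
  ∃ (n : ℕ) (c : Fin n → ℂ) (P : Fin n → (L2 G →L[ℂ] L2 G)), (∀ i, IsPositive (P i)) ∧
    ∀ (f : L2 G) (t : G), val (T f) t = ∑ i, c i * val (P i f) t

/-- `T ρ_s = ρ_s T` for every `s`, where `ρ_s f (t) = f (t s)`: if `h = ρ_s f` then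
`T h = ρ_s (T f)`. -/
def CommutesRight {G : Type} [Group G] (T : L2 G →L[ℂ] L2 G) : Prop :=
  ∀ (s : G) (f h : L2 G), (∀ t, val h t = val f (t * s)) → ∀ t, val (T h) t = val (T f) (t * s)

/-- There is a non-amenable (discrete) group `G` and a bounded operator on `L^2(G)` which commutes
with all right translations and is not regular. -/
theorem result : ∃ (G : Type) (_ : Group G), ¬ Amenable G ∧
    ∃ T : L2 G →L[ℂ] L2 G, CommutesRight T ∧ ¬ IsRegular T := by
  obtain ⟨h1, T, hT, hr⟩ := Pool.Agent.X164.RegConv.main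
  refine ⟨Pool.Agent.X164.RegConv.Gp, inferInstance, h1, T, hT, ?_⟩
  rintro ⟨n, c, P, hP, hs⟩
  apply hr
  have e : T = ∑ i, c i • (show Pool.Agent.X164.RegConv.L2 Pool.Agent.X164.RegConv.Gp →L[ℂ]
      Pool.Agent.X164.RegConv.L2 Pool.Agent.X164.RegConv.Gp from P i) := by
    apply ContinuousLinearMap.ext
    intro f
    apply lp.ext
    funext t
    refine (hs f t).trans ?_
    rw [sum_apply, lp.coeFn_sum, Finset.sum_apply]
    rfl
  unfold Pool.Agent.X164.RegConv.IsRegular
  rw [e]
  exact Submodule.sum_mem _ fun i _ => Submodule.smul_mem _ _ (Submodule.subset_span (hP i))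

end Pool.Agent.Results.MP_b39683_an.NonAmenable
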